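import Mathlib

/-!
T6 (helper94 for helper592): a lower bound for a sum over primes from a lower bound for a sum over prime powers.
-/

set_option autoImplicit false

namespace Pool.Agent.H94.XW

open Finset Filter

/-- Abel summation -/
theorem abel_le (f : ℕ → ℝ) (hf : ∀ ℓ, 0 ≤ f ℓ) (k N : ℕ) (hk : 1 ≤ k) (hkN : k ≤ N) :
    ∑ ℓ ∈ Ioc k N, f ℓ / ℓ ≤ 1 / N * (∑ ℓ ∈ Icc 1 N, f ℓ) +
      ∑ n ∈ Ico k N, 1 / ((n : ℝ) * (n + 1)) * (∑ ℓ ∈ Icc 1 n, f ℓ) := by
  induction N, hkN using Nat.le_induction with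
  | base =>
    rw [Ioc_self, sum_empty, Ico_self, sum_empty, add_zero]
    exact mul_nonneg (by positivity) (sum_nonneg fun ℓ _ => hf ℓ)
  | succ N hN ih =>
    rw [sum_Ioc_succ_top hN, sum_Ico_succ_top hN, sum_Icc_succ_top (by omega)]
    have hN0 : (0 : ℝ) < N := by
      have : 0 < N := by omega
      exact_mod_cast this
    obtain ⟨S, hS⟩ : ∃ S : ℝ, S = ∑ ℓ ∈ Icc 1 N, f ℓ := ⟨_, rfl⟩
    rw [← hS] at ih ⊢
    have e : 1 / ((N + 1 : ℕ) : ℝ) * (S + f (N + 1)) =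
        1 / N * S - 1 / ((N : ℝ) * (N + 1)) * S + f (N + 1) / ((N + 1 : ℕ) : ℝ) := by
      push_cast
      field_simp
      ring
    rw [e]
    linarith

theorem harm_le (k N : ℕ) : ∑ n ∈ Ico k N, 1 / ((n : ℝ) + 1) ≤ 1 + Real.log N := by
  have h1 := harmonic_le_one_add_log N
  unfold harmonic at h1
  push_cast at h1
  refine le_trans ?_ h1
  have h2 : ∑ n ∈ Ico k N, 1 / ((n : ℝ) + 1) ≤ ∑ n ∈ range N, 1 / ((n : ℝ) + 1) := by
    refine sum_le_sum_of_subset_of_nonneg ?_ fun n _ _ => by positivity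
    intro x hx
    rw [mem_Ico] at hx
    rw [mem_range]
    exact hx.2
  refine h2.trans (le_of_eq ?_)
  refine sum_congr rfl fun n _ => ?_
  rw [one_div]

/-- Chebyshev's bound in logarithmic form -/
theorem cheb (N : ℕ) (hN : 1 ≤ N) :
    ∑ p ∈ (Icc 2 N).filter Nat.Prime, Real.log p / p ≤ Real.log 4 * (2 + Real.log N) := by
  have hl4 : 0 < Real.log 4 := Real.log_pos (by norm_num)
  obtain ⟨f, hf⟩ : ∃ f : ℕ → ℝ, f = fun ℓ => if ℓ.Prime then Real.log ℓ else 0 := ⟨_, rfl⟩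
  have hf0 : ∀ ℓ, 0 ≤ f ℓ := by
    intro ℓ
    rw [hf]
    dsimp only
    split_ifs with h
    · exact Real.log_natCast_nonneg ℓ
    · exact le_rfl
  have e1 : ∑ p ∈ (Icc 2 N).filter Nat.Prime, Real.log p / p = ∑ ℓ ∈ Ioc 1 N, f ℓ / ℓ := by
    have e : Icc 2 N = Ioc 1 N := rfl
    rw [e, sum_filter]
    refine sum_congr rfl fun ℓ _ => ?_
    rw [hf]
    dsimp only
    split_ifs with h
    · rfl
    · rw [zero_div]
  have e2 : ∀ n : ℕ, ∑ ℓ ∈ Icc 1 n, f ℓ ≤ Real.log 4 * n := by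
    intro n
    have h1 := Chebyshev.theta_le_log4_mul_x (x := (n : ℝ)) (Nat.cast_nonneg n)
    refine le_trans (le_of_eq ?_) h1
    unfold Chebyshev.theta
    rw [Nat.floor_natCast, hf, sum_filter]
    rfl
  rw [e1]
  refine (abel_le f hf0 1 N le_rfl hN).trans ?_
  have hN0 : (0 : ℝ) < N := by exact_mod_cast hN
  have h1 : 1 / (N : ℝ) * (∑ ℓ ∈ Icc 1 N, f ℓ) ≤ Real.log 4 := by
    calc 1 / (N : ℝ) * (∑ ℓ ∈ Icc 1 N, f ℓ) ≤ 1 / (N : ℝ) * (Real.log 4 * N) :=
          mul_le_mul_of_nonneg_left (e2 N) (by positivity)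
      _ = Real.log 4 := by field_simp
  have h2 : ∑ n ∈ Ico 1 N, 1 / ((n : ℝ) * (n + 1)) * (∑ ℓ ∈ Icc 1 n, f ℓ) ≤
      ∑ n ∈ Ico 1 N, Real.log 4 * (1 / ((n : ℝ) + 1)) := by
    refine sum_le_sum fun n hn => ?_
    have hn0 : (0 : ℝ) < n := by
      have := (mem_Ico.1 hn).1
      exact_mod_cast this
    calc 1 / ((n : ℝ) * (n + 1)) * (∑ ℓ ∈ Icc 1 n, f ℓ) ≤
          1 / ((n : ℝ) * (n + 1)) * (Real.log 4 * n) :=
          mul_le_mul_of_nonneg_left (e2 n) (by positivity)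
      _ = Real.log 4 * (1 / ((n : ℝ) + 1)) := by field_simp
  rw [← mul_sum] at h2
  have h3 := mul_le_mul_of_nonneg_left (harm_le 1 N) hl4.le
  linarith

theorem summable_A : Summable fun a : ℕ => 8 * (((a : ℝ) + 1) ^ 2 * a * (1 / 2) ^ a) := by
  have hr : ‖(1 / 2 : ℝ)‖ < 1 := by norm_num
  have h1 := summable_pow_mul_geometric_of_norm_lt_one 1 hr
  have h2 := summable_pow_mul_geometric_of_norm_lt_one 2 hr
  have h3 := summable_pow_mul_geometric_of_norm_lt_one 3 hr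
  refine Summable.mul_left 8 ?_
  refine ((h3.add (h2.mul_left 2)).add h1).congr fun a => ?_
  ring

theorem summable_B : Summable fun p : ℕ => (p : ℝ) ^ (-(3 / 2) : ℝ) :=
  Real.summable_nat_rpow.2 (by norm_num)

/-- one term -/
theorem term_le {p a : ℕ} (hp : p.Prime) (ha : 2 ≤ a) (x : ℝ) (hx : x ≤ ((a : ℝ) + 1) ^ 2) :
    x / ((p ^ a : ℕ) : ℝ) * Real.log ((p ^ a : ℕ) : ℝ) ≤
      8 * (((a : ℝ) + 1) ^ 2 * a * (1 / 2) ^ a) * (p : ℝ) ^ (-(3 / 2) : ℝ) := by
  have hp2 : (2 : ℝ) ≤ p := by exact_mod_cast hp.two_le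
  have hp0 : (0 : ℝ) < p := by linarith
  have ha0 : (0 : ℝ) ≤ a := Nat.cast_nonneg a
  have hlog : Real.log (p : ℝ) ≤ 2 * (p : ℝ) ^ (1 / 2 : ℝ) := by
    have := Real.log_le_rpow_div hp0.le (ε := 1 / 2) (by norm_num)
    linarith
  have hlog0 : 0 ≤ Real.log (p : ℝ) := Real.log_nonneg (by linarith)
  push_cast
  rw [Real.log_pow]
  have hpa : 1 / (p : ℝ) ^ a ≤ 4 * (1 / 2) ^ a * (1 / (p : ℝ) ^ 2) := by
    obtain ⟨b, rfl⟩ := Nat.exists_eq_add_of_le ha
    have h1 : (2 : ℝ) ^ b ≤ (p : ℝ) ^ b := pow_le_pow_left₀ (by norm_num) hp2 b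
    have e : 4 * (1 / 2 : ℝ) ^ (2 + b) * (1 / (p : ℝ) ^ 2) = 1 / (2 ^ b * (p : ℝ) ^ 2) := by
      rw [pow_add, one_div_pow, one_div_pow]
      field_simp
      norm_num
    rw [e, pow_add, mul_comm ((p : ℝ) ^ 2)]
    refine one_div_le_one_div_of_le (by positivity) ?_
    exact mul_le_mul_of_nonneg_right h1 (by positivity)
  have hpow : (p : ℝ) ^ (1 / 2 : ℝ) * (1 / (p : ℝ) ^ 2) = (p : ℝ) ^ (-(3 / 2) : ℝ) := by
    have e : (-(3 / 2) : ℝ) = 1 / 2 - ((2 : ℕ) : ℝ) := by push_cast; norm_num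
    rw [e, Real.rpow_sub hp0, Real.rpow_natCast, mul_one_div]
  calc x / (p : ℝ) ^ a * (a * Real.log p) = x * (a * Real.log p) * (1 / (p : ℝ) ^ a) := by ring
    _ ≤ ((a : ℝ) + 1) ^ 2 * (a * Real.log p) * (1 / (p : ℝ) ^ a) := by
        refine mul_le_mul_of_nonneg_right ?_ (by positivity)
        exact mul_le_mul_of_nonneg_right hx (by positivity)
    _ ≤ ((a : ℝ) + 1) ^ 2 * (a * (2 * (p : ℝ) ^ (1 / 2 : ℝ))) *
          (4 * (1 / 2) ^ a * (1 / (p : ℝ) ^ 2)) := by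
        refine mul_le_mul ?_ hpa (by positivity) (by positivity)
        exact mul_le_mul_of_nonneg_left (mul_le_mul_of_nonneg_left hlog ha0) (by positivity)
    _ = 8 * (((a : ℝ) + 1) ^ 2 * a * (1 / 2) ^ a) *
          ((p : ℝ) ^ (1 / 2 : ℝ) * (1 / (p : ℝ) ^ 2)) := by ring
    _ = _ := by rw [hpow]

theorem card_div {p a : ℕ} (hp : p.Prime) : ((p ^ a).divisors.card : ℝ) = (a : ℝ) + 1 := by
  rw [Nat.divisors_prime_pow hp, card_map, card_range]
  push_cast
  ring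

/-- the prime powers which are not primes contribute a constant at most -/
theorem higher (g : ℕ → ℝ) (hg : ∀ n : ℕ, 1 ≤ n → g n ≤ (n.divisors.card : ℝ) ^ 2) :
    ∃ C : ℝ, 0 ≤ C ∧ ∀ X : ℕ, ∑ q ∈ (Icc 2 X).filter (fun q => IsPrimePow q ∧ ¬ q.Prime),
      g q / (q : ℝ) * Real.log q ≤ C := by
  obtain ⟨A, hA⟩ : ∃ A : ℕ → ℝ, A = fun a : ℕ => 8 * (((a : ℝ) + 1) ^ 2 * a * (1 / 2) ^ a) :=
    ⟨_, rfl⟩
  obtain ⟨B, hB⟩ : ∃ B : ℕ → ℝ, B = fun p : ℕ => (p : ℝ) ^ (-(3 / 2) : ℝ) := ⟨_, rfl⟩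
  have hA0 : ∀ a, 0 ≤ A a := by
    intro a
    rw [hA]
    positivity
  have hB0 : ∀ p, 0 ≤ B p := by
    intro p
    rw [hB]
    positivity
  have hAs : Summable A := by
    rw [hA]
    exact summable_A
  have hBs : Summable B := by
    rw [hB]
    exact summable_B
  refine ⟨(∑' a, A a) * ∑' p, B p, mul_nonneg (tsum_nonneg hA0) (tsum_nonneg hB0), fun X => ?_⟩
  obtain ⟨e, he⟩ : ∃ e : ℕ → ℕ × ℕ, e = fun q => (q.factorization q.minFac, q.minFac) := ⟨_, rfl⟩
  obtain ⟨S, hS⟩ : ∃ S, S = (Icc 2 X).filter (fun q => IsPrimePow q ∧ ¬ q.Prime) := ⟨_, rfl⟩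
  rw [← hS]
  have hmem : ∀ q ∈ S, q.minFac.Prime ∧ 2 ≤ q.factorization q.minFac ∧
      q.minFac ^ q.factorization q.minFac = q ∧ q ≤ X := by
    intro q hq
    rw [hS, mem_filter, mem_Icc] at hq
    obtain ⟨⟨h1, h2⟩, h3, h4⟩ := hq
    have h5 : q.minFac.Prime := Nat.minFac_prime (by omega)
    have h6 := h3.minFac_pow_factorization_eq
    refine ⟨h5, ?_, h6, h2⟩
    by_contra h7
    have h8 : q.factorization q.minFac = 0 ∨ q.factorization q.minFac = 1 := by omega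
    rcases h8 with h8 | h8
    · rw [h8, pow_zero] at h6
      omega
    · rw [h8, pow_one] at h6
      rw [h6] at h5
      exact h4 h5
  have hinj : Set.InjOn e S := by
    intro q hq q' hq' h
    rw [he] at h
    obtain ⟨h1, h2⟩ := Prod.ext_iff.1 h
    dsimp only at h1 h2
    have h3 := (hmem q hq).2.2.1
    have h4 := (hmem q' hq').2.2.1
    rw [← h3, h1, h2, h4]
  have h1 : ∑ q ∈ S, g q / (q : ℝ) * Real.log q ≤ ∑ q ∈ S, A (e q).1 * B (e q).2 := by
    refine sum_le_sum fun q hq => ?_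
    obtain ⟨g1, g2, g3, g4⟩ := hmem q hq
    have h2 := hg q (by
      have := (mem_Icc.1 (mem_filter.1 (hS ▸ hq)).1).1
      omega)
    have h3 : (q.divisors.card : ℝ) = (q.factorization q.minFac : ℝ) + 1 := by
      have := card_div (a := q.factorization q.minFac) g1
      rw [g3] at this
      exact this
    rw [h3] at h2
    have h4 := term_le g1 g2 (g q) h2
    rw [g3] at h4
    rw [he, hA, hB]
    exact h4
  refine h1.trans ?_
  rw [← sum_image (f := fun x : ℕ × ℕ => A x.1 * B x.2) hinj]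
  have h2 : S.image e ⊆ range (X + 1) ×ˢ range (X + 1) := by
    intro x hx
    rw [mem_image] at hx
    obtain ⟨q, hq, rfl⟩ := hx
    obtain ⟨g1, g2, g3, g4⟩ := hmem q hq
    rw [mem_product, mem_range, mem_range, he]
    dsimp only
    constructor
    · have h5 : q.factorization q.minFac < q.minFac ^ q.factorization q.minFac :=
        Nat.lt_pow_self g1.one_lt
      rw [g3] at h5
      omega
    · have h5 : q.minFac ≤ q := by
        have h6 : 0 < q := by
          rw [← g3]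
          exact pow_pos g1.pos _
        exact Nat.minFac_le h6
      omega
  refine (sum_le_sum_of_subset_of_nonneg h2 fun x _ _ => mul_nonneg (hA0 _) (hB0 _)).trans ?_
  rw [sum_product, ← sum_mul_sum]
  exact mul_le_mul (hAs.sum_le_tsum _ fun a _ => hA0 a) (hBs.sum_le_tsum _ fun p _ => hB0 p)
    (sum_nonneg fun p _ => hB0 p) (tsum_nonneg hA0)

theorem t6 (g : ℕ → ℝ) (h0 : ∀ n, 0 ≤ g n)
    (hg : ∀ n : ℕ, 1 ≤ n → g n ≤ (n.divisors.card : ℝ) ^ 2) (κ X₁ : ℝ) (hκ : 0 < κ)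
    (H : ∀ X : ℕ, X₁ ≤ X → κ * Real.log X ≤
      ∑ q ∈ (Finset.Icc 2 X).filter IsPrimePow, g q / (q:ℝ) * Real.log q) :
    ∃ δ X₂ : ℝ, 0 < δ ∧ ∀ X : ℕ, X₂ ≤ X → (X:ℝ) ^ δ ≤
      ∑ p ∈ (Finset.Icc 3 X).filter Nat.Prime, √(g p) * (p:ℝ) ^ (-(3/4) : ℝ) := by
  obtain ⟨C, hC0, hC⟩ := higher g hg
  have hl4 : 0 < Real.log 4 := Real.log_pos (by norm_num)
  obtain ⟨β, hβ⟩ : ∃ β : ℝ, β = κ / (16 * Real.log 4) := ⟨_, rfl⟩
  have hβ0 : 0 < β := by
    rw [hβ]
    positivity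
  have hβκ : 4 * Real.log 4 * β = κ / 4 := by
    rw [hβ]
    field_simp
    norm_num
  have hcast : Tendsto (fun X : ℕ => (X : ℝ)) atTop atTop := tendsto_natCast_atTop_atTop
  have ev1 := hcast.eventually_ge_atTop X₁
  have ev2 := ((tendsto_rpow_atTop hβ0).comp hcast).eventually_ge_atTop 2
  have ev3 := (Real.tendsto_log_atTop.comp hcast).eventually_ge_atTop
    ((C + 8 * Real.log 4) / (κ / 4))
  have ev4 := ((tendsto_rpow_atTop (show 0 < β / 8 by positivity)).comp hcast).eventually_ge_atTop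
    (4 / κ)
  have ev5 := hcast.eventually_ge_atTop 2
  obtain ⟨N₀, hN₀⟩ := eventually_atTop.1 (ev1.and (ev2.and (ev3.and (ev4.and ev5))))
  refine ⟨β / 8, N₀, by positivity, fun X hX => ?_⟩
  obtain ⟨e1, e2, e3, e4, e5⟩ := hN₀ X (by exact_mod_cast hX)
  simp only [Function.comp_apply] at e2 e3 e4
  rw [div_le_iff₀ (by positivity)] at e3
  have hX0 : (0 : ℝ) < X := by linarith
  have hlX : 0 < Real.log X := Real.log_pos (by linarith)
  obtain ⟨z, hz⟩ : ∃ z : ℝ, z = (X : ℝ) ^ β := ⟨_, rfl⟩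
  rw [← hz] at e2
  have hz0 : 0 < z := by linarith
  obtain ⟨N, hN⟩ : ∃ N : ℕ, N = ⌊z⌋₊ := ⟨_, rfl⟩
  have hN2 : 2 ≤ N := by
    rw [hN]
    exact Nat.le_floor (by exact_mod_cast e2)
  have hNz : (N : ℝ) ≤ z := by
    rw [hN]
    exact Nat.floor_le hz0.le
  have hzN : z < N + 1 := by
    rw [hN]
    exact Nat.lt_floor_add_one z
  have hlN : Real.log N ≤ β * Real.log X := by
    have hN0 : (0 : ℝ) < N := by
      have : 0 < N := by omega
      exact_mod_cast this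
    calc Real.log N ≤ Real.log z := Real.log_le_log hN0 hNz
      _ = β * Real.log X := by rw [hz, Real.log_rpow hX0]
  obtain ⟨T, hT⟩ : ∃ T : ℝ, T = ∑ p ∈ (Finset.Icc 3 X).filter Nat.Prime,
    √(g p) * (p:ℝ) ^ (-(3/4) : ℝ) := ⟨_, rfl⟩
  rw [← hT]
  -- the primes
  have hgp : ∀ p : ℕ, p.Prime → g p ≤ 4 := by
    intro p hp
    have h1 := hg p hp.one_lt.le
    have h2 := card_div (a := 1) hp
    rw [pow_one] at h2
    rw [h2] at h1
    norm_num at h1
    exact h1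
  have hterm0 : ∀ p : ℕ, 0 ≤ g p / (p : ℝ) * Real.log p := fun p =>
    mul_nonneg (div_nonneg (h0 p) (Nat.cast_nonneg p)) (Real.log_natCast_nonneg p)
  have hsmall : ∑ p ∈ ((Icc 2 X).filter Nat.Prime).filter (fun p => p ≤ N),
      g p / (p : ℝ) * Real.log p ≤ 4 * (Real.log 4 * (2 + Real.log N)) := by
    calc ∑ p ∈ ((Icc 2 X).filter Nat.Prime).filter (fun p => p ≤ N), g p / (p : ℝ) * Real.log p
        ≤ ∑ p ∈ (Icc 2 N).filter Nat.Prime, g p / (p : ℝ) * Real.log p := by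
          refine sum_le_sum_of_subset_of_nonneg ?_ fun p _ _ => hterm0 p
          intro p hp
          simp only [mem_filter, mem_Icc] at hp ⊢
          exact ⟨⟨hp.1.1.1, hp.2⟩, hp.1.2⟩
      _ ≤ ∑ p ∈ (Icc 2 N).filter Nat.Prime, 4 * (Real.log p / p) := by
          refine sum_le_sum fun p hp => ?_
          have hp' := (mem_filter.1 hp).2
          have h1 : 0 ≤ Real.log p / p :=
            div_nonneg (Real.log_natCast_nonneg p) (Nat.cast_nonneg p)
          calc g p / (p : ℝ) * Real.log p = g p * (Real.log p / p) := by ring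
            _ ≤ 4 * (Real.log p / p) := mul_le_mul_of_nonneg_right (hgp p hp') h1
      _ ≤ 4 * (Real.log 4 * (2 + Real.log N)) := by
          rw [← mul_sum]
          exact mul_le_mul_of_nonneg_left (cheb N (by omega)) (by norm_num)
  have hlarge : ∑ p ∈ ((Icc 2 X).filter Nat.Prime).filter (fun p => ¬ p ≤ N),
      g p / (p : ℝ) * Real.log p ≤ 2 * Real.log X * z ^ (-(1 / 4) : ℝ) * T := by
    calc ∑ p ∈ ((Icc 2 X).filter Nat.Prime).filter (fun p => ¬ p ≤ N), g p / (p : ℝ) * Real.log p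
        ≤ ∑ p ∈ ((Icc 2 X).filter Nat.Prime).filter (fun p => ¬ p ≤ N),
            2 * Real.log X * z ^ (-(1 / 4) : ℝ) * (√(g p) * (p:ℝ) ^ (-(3/4) : ℝ)) := by
          refine sum_le_sum fun p hp => ?_
          simp only [mem_filter, mem_Icc] at hp
          obtain ⟨⟨⟨g1, g2⟩, g3⟩, g4⟩ := hp
          have hp0 : (0 : ℝ) < p := by
            have : 0 < p := by omega
            exact_mod_cast this
          have hzp : z ≤ p := by
            have h1 : N + 1 ≤ p := by omega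
            have h2 : ((N + 1 : ℕ) : ℝ) ≤ p := by exact_mod_cast h1
            push_cast at h2
            linarith
          have hlp : Real.log p ≤ Real.log X := Real.log_le_log hp0 (by exact_mod_cast g2)
          have hlp0 : 0 ≤ Real.log (p : ℝ) := Real.log_natCast_nonneg p
          have hs0 : 0 ≤ √(g p) := Real.sqrt_nonneg _
          have hs2 : √(g p) ≤ 2 := by
            rw [Real.sqrt_le_left (by norm_num)]
            have := hgp p g3
            linarith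
          have hss : g p = √(g p) * √(g p) := (Real.mul_self_sqrt (h0 p)).symm
          have hpz : (p : ℝ) ^ (-(1 / 4) : ℝ) ≤ z ^ (-(1 / 4) : ℝ) :=
            Real.rpow_le_rpow_of_nonpos hz0 hzp (by norm_num)
          have hpp : (1 : ℝ) / p = (p : ℝ) ^ (-(1 / 4) : ℝ) * (p : ℝ) ^ (-(3 / 4) : ℝ) := by
            rw [← Real.rpow_add hp0]
            have e : (-(1 / 4) + -(3 / 4) : ℝ) = -1 := by norm_num
            rw [e, Real.rpow_neg_one, one_div]
          calc g p / (p : ℝ) * Real.log p = √(g p) * √(g p) * Real.log p * (1 / p) := by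
                rw [← hss]
                ring
            _ = (√(g p) * Real.log p * (p : ℝ) ^ (-(1 / 4) : ℝ)) *
                  (√(g p) * (p : ℝ) ^ (-(3 / 4) : ℝ)) := by
                rw [hpp]
                ring
            _ ≤ (2 * Real.log X * z ^ (-(1 / 4) : ℝ)) * (√(g p) * (p : ℝ) ^ (-(3 / 4) : ℝ)) := by
                refine mul_le_mul_of_nonneg_right ?_ (by positivity)
                refine mul_le_mul ?_ hpz (by positivity) (by positivity)
                exact mul_le_mul hs2 hlp hlp0 (by norm_num)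
      _ = 2 * Real.log X * z ^ (-(1 / 4) : ℝ) *
            ∑ p ∈ ((Icc 2 X).filter Nat.Prime).filter (fun p => ¬ p ≤ N),
              √(g p) * (p:ℝ) ^ (-(3/4) : ℝ) := by rw [mul_sum]
      _ ≤ 2 * Real.log X * z ^ (-(1 / 4) : ℝ) * T := by
          refine mul_le_mul_of_nonneg_left ?_ (by positivity)
          rw [hT]
          refine sum_le_sum_of_subset_of_nonneg ?_ fun p _ _ => by positivity
          intro p hp
          simp only [mem_filter, mem_Icc] at hp ⊢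
          obtain ⟨⟨⟨g1, g2⟩, g3⟩, g4⟩ := hp
          exact ⟨⟨by omega, g2⟩, g3⟩
  -- all prime powers
  have hall : κ * Real.log X ≤ C + (4 * (Real.log 4 * (2 + Real.log N)) +
      2 * Real.log X * z ^ (-(1 / 4) : ℝ) * T) := by
    refine (H X e1).trans ?_
    rw [← sum_filter_not_add_sum_filter ((Icc 2 X).filter IsPrimePow) (fun q => q.Prime)]
    refine add_le_add ?_ ?_
    · rw [filter_filter]
      exact hC X
    · have h1 : ((Icc 2 X).filter IsPrimePow).filter (fun q => q.Prime) ⊆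
          (Icc 2 X).filter Nat.Prime := by
        intro q hq
        simp only [mem_filter] at hq ⊢
        exact ⟨hq.1.1, hq.2⟩
      refine (sum_le_sum_of_subset_of_nonneg h1 fun p _ _ => hterm0 p).trans ?_
      rw [← sum_filter_add_sum_filter_not ((Icc 2 X).filter Nat.Prime) (fun p => p ≤ N)]
      exact add_le_add hsmall hlarge
  have h8 : 4 * (Real.log 4 * (2 + Real.log N)) ≤ 8 * Real.log 4 + κ / 4 * Real.log X := by
    have h9 : 4 * Real.log 4 * Real.log N ≤ 4 * Real.log 4 * (β * Real.log X) :=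
      mul_le_mul_of_nonneg_left hlN (by positivity)
    have h10 : 4 * Real.log 4 * (β * Real.log X) = κ / 4 * Real.log X := by
      rw [← hβκ]
      ring
    linarith
  have h11 : κ / 4 ≤ z ^ (-(1 / 4) : ℝ) * T := by
    have h12 : κ / 4 * (2 * Real.log X) ≤ z ^ (-(1 / 4) : ℝ) * T * (2 * Real.log X) := by
      linarith
    exact le_of_mul_le_mul_right h12 (by positivity)
  have h13 : κ / 4 * z ^ (1 / 4 : ℝ) ≤ T := by
    have h14 := mul_le_mul_of_nonneg_right h11 (Real.rpow_nonneg hz0.le (1 / 4 : ℝ))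
    have h15 : z ^ (-(1 / 4) : ℝ) * z ^ (1 / 4 : ℝ) = 1 := by
      rw [← Real.rpow_add hz0, neg_add_cancel, Real.rpow_zero]
    calc κ / 4 * z ^ (1 / 4 : ℝ) ≤ z ^ (-(1 / 4) : ℝ) * T * z ^ (1 / 4 : ℝ) := h14
      _ = (z ^ (-(1 / 4) : ℝ) * z ^ (1 / 4 : ℝ)) * T := by ring
      _ = T := by rw [h15, one_mul]
  have h16 : z ^ (1 / 4 : ℝ) = (X : ℝ) ^ (β / 8) * (X : ℝ) ^ (β / 8) := by
    rw [hz, ← Real.rpow_mul hX0.le, ← Real.rpow_add hX0]
    congr 1
    ring
  refine le_trans ?_ h13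
  rw [h16]
  have h17 : 1 ≤ κ / 4 * (X : ℝ) ^ (β / 8) := by
    rw [div_le_iff₀ hκ] at e4
    linarith
  calc (X : ℝ) ^ (β / 8) = 1 * (X : ℝ) ^ (β / 8) := (one_mul _).symm
    _ ≤ κ / 4 * (X : ℝ) ^ (β / 8) * (X : ℝ) ^ (β / 8) :=
        mul_le_mul_of_nonneg_right h17 (Real.rpow_nonneg hX0.le _)
    _ = _ := by ring

end Pool.Agent.H94.XW
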