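import Pool.Agent.H94.XW.T6

/-!
T6b (helper94 for helper592): a dyadic block with many primes p with g p not small.
-/

set_option autoImplicit false

namespace Pool.Agent.H94.XW

open Finset Filter

theorem log4_le : Real.log 4 ≤ 3 := by
  have := Real.log_le_sub_one_of_pos (x := 4) (by norm_num)
  linarith

theorem block_log (z : ℕ) (hz : 1 ≤ z) :
    ∑ p ∈ (Ioc z (2 * z)).filter Nat.Prime, Real.log p / p ≤ 6 := by
  have hz0 : (0 : ℝ) < z := by exact_mod_cast hz
  have h1 := Chebyshev.theta_le_log4_mul_x (x := ((2 * z : ℕ) : ℝ)) (Nat.cast_nonneg _)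
  unfold Chebyshev.theta at h1
  rw [Nat.floor_natCast] at h1
  have h2 : ∑ p ∈ (Ioc z (2 * z)).filter Nat.Prime, Real.log p / p ≤
      ∑ p ∈ (Ioc z (2 * z)).filter Nat.Prime, Real.log p * (1 / z) := by
    refine sum_le_sum fun p hp => ?_
    have hzp : (z : ℝ) ≤ p := by
      have := (mem_Ioc.1 (mem_filter.1 hp).1).1.le
      exact_mod_cast this
    rw [div_eq_mul_one_div]
    exact mul_le_mul_of_nonneg_left (one_div_le_one_div_of_le hz0 hzp)
      (Real.log_natCast_nonneg p)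
  have h3 : ∑ p ∈ (Ioc z (2 * z)).filter Nat.Prime, Real.log (p : ℝ) ≤
      ∑ p ∈ (Ioc 0 (2 * z)).filter Nat.Prime, Real.log (p : ℝ) := by
    refine sum_le_sum_of_subset_of_nonneg ?_ fun p _ _ => Real.log_natCast_nonneg p
    intro p hp
    simp only [mem_filter, mem_Ioc] at hp ⊢
    exact ⟨⟨by omega, hp.1.2⟩, hp.2⟩
  rw [← sum_mul] at h2
  calc _ ≤ (∑ p ∈ (Ioc z (2 * z)).filter Nat.Prime, Real.log (p : ℝ)) * (1 / z) := h2
    _ ≤ (Real.log 4 * ((2 * z : ℕ) : ℝ)) * (1 / z) :=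
        mul_le_mul_of_nonneg_right (h3.trans h1) (by positivity)
    _ = 2 * Real.log 4 := by
        push_cast
        field_simp
    _ ≤ 6 := by linarith [log4_le]

theorem block_g (g : ℕ → ℝ) (h0 : ∀ n, 0 ≤ g n) (h4 : ∀ p : ℕ, p.Prime → g p ≤ 4)
    (z : ℕ) (hz : 2 ≤ z) {b : ℝ} (hb : 0 < b)
    (hc : (((Finset.Ioc z (2 * z)).filter (fun p => p.Prime ∧ b ≤ g p)).card : ℝ) <
      b * z / Real.log z) :
    ∑ p ∈ (Ioc z (2 * z)).filter Nat.Prime, g p / (p : ℝ) * Real.log p ≤ 14 * b := by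
  have hz2 : (2 : ℝ) ≤ z := by exact_mod_cast hz
  have hz0 : (0 : ℝ) < z := by linarith
  have hlz : 0 < Real.log z := Real.log_pos (by linarith)
  have hl2 : Real.log ((2 : ℝ) * z) ≤ 2 * Real.log z := by
    rw [Real.log_mul (by norm_num) hz0.ne']
    have := Real.log_le_log (by norm_num) hz2
    linarith
  rw [← sum_filter_add_sum_filter_not ((Ioc z (2 * z)).filter Nat.Prime) (fun p => b ≤ g p)]
  have hA : ∑ p ∈ ((Ioc z (2 * z)).filter Nat.Prime).filter (fun p => b ≤ g p),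
      g p / (p : ℝ) * Real.log p ≤ 8 * b := by
    rw [filter_filter]
    have h1 : ∀ p ∈ (Ioc z (2 * z)).filter (fun p => p.Prime ∧ b ≤ g p),
        g p / (p : ℝ) * Real.log p ≤ 8 * Real.log z / z := by
      intro p hp
      simp only [mem_filter, mem_Ioc] at hp
      obtain ⟨⟨a1, a2⟩, a3, a4⟩ := hp
      have hzp : (z : ℝ) ≤ p := by exact_mod_cast a1.le
      have hp0 : (0 : ℝ) < p := by linarith
      have hlp0 : 0 ≤ Real.log (p : ℝ) := Real.log_natCast_nonneg p
      have hlp : Real.log (p : ℝ) ≤ 2 * Real.log z := by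
        refine le_trans (Real.log_le_log hp0 ?_) hl2
        exact_mod_cast a2
      calc g p / (p : ℝ) * Real.log p = g p * Real.log p * (1 / p) := by ring
        _ ≤ 4 * (2 * Real.log z) * (1 / z) := by
            refine mul_le_mul ?_ (one_div_le_one_div_of_le hz0 hzp) (by positivity)
              (by positivity)
            exact mul_le_mul (h4 p a3) hlp hlp0 (by norm_num)
        _ = 8 * Real.log z / z := by ring
    refine (sum_le_sum h1).trans ?_
    rw [sum_const, nsmul_eq_mul]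
    calc _ ≤ (b * z / Real.log z) * (8 * Real.log z / z) :=
          mul_le_mul_of_nonneg_right hc.le (by positivity)
      _ = 8 * b := by field_simp
  have hB : ∑ p ∈ ((Ioc z (2 * z)).filter Nat.Prime).filter (fun p => ¬ b ≤ g p),
      g p / (p : ℝ) * Real.log p ≤ 6 * b := by
    have h1 : ∀ p ∈ ((Ioc z (2 * z)).filter Nat.Prime).filter (fun p => ¬ b ≤ g p),
        g p / (p : ℝ) * Real.log p ≤ b * (Real.log p / p) := by
      intro p hp
      have a1 := not_le.1 (mem_filter.1 hp).2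
      have h2 : 0 ≤ Real.log p / p :=
        div_nonneg (Real.log_natCast_nonneg p) (Nat.cast_nonneg p)
      calc g p / (p : ℝ) * Real.log p = g p * (Real.log p / p) := by ring
        _ ≤ b * (Real.log p / p) := mul_le_mul_of_nonneg_right a1.le h2
    refine (sum_le_sum h1).trans ?_
    rw [← mul_sum]
    have h3 : ∑ p ∈ ((Ioc z (2 * z)).filter Nat.Prime).filter (fun p => ¬ b ≤ g p),
        Real.log p / p ≤ ∑ p ∈ (Ioc z (2 * z)).filter Nat.Prime, Real.log p / p :=
      sum_le_sum_of_subset_of_nonneg (filter_subset _ _) fun p _ _ =>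
        div_nonneg (Real.log_natCast_nonneg p) (Nat.cast_nonneg p)
    have h5 := mul_le_mul_of_nonneg_left (h3.trans (block_log z (by omega))) hb.le
    linarith
  linarith

theorem t6b (g : ℕ → ℝ) (h0 : ∀ n, 0 ≤ g n)
    (hg : ∀ n : ℕ, 1 ≤ n → g n ≤ (n.divisors.card : ℝ) ^ 2) (κ X₁ : ℝ) (hκ : 0 < κ)
    (H : ∀ X : ℕ, X₁ ≤ X → κ * Real.log X ≤
      ∑ q ∈ (Finset.Icc 2 X).filter IsPrimePow, g q / (q:ℝ) * Real.log q) :
    ∃ b δ X₂ : ℝ, 0 < b ∧ b ≤ 1/2 ∧ 0 < δ ∧ ∀ X : ℕ, X₂ ≤ X →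
      ∃ z : ℕ, (X:ℝ) ^ δ ≤ z ∧ 2 * z ≤ X ∧ b * z / Real.log z ≤
        (((Finset.Ioc z (2 * z)).filter (fun p => p.Prime ∧ b ≤ g p)).card : ℝ) := by
  obtain ⟨C, hC0, hC⟩ := higher g hg
  have hl4 : 0 < Real.log 4 := Real.log_pos (by norm_num)
  obtain ⟨β, hβ⟩ : ∃ β : ℝ, β = κ / (16 * Real.log 4) := ⟨_, rfl⟩
  have hβ0 : 0 < β := by
    rw [hβ]
    positivity
  have hβκ : 4 * Real.log 4 * β = κ / 4 := by
    rw [hβ]
    field_simp
    norm_num
  obtain ⟨b, hb⟩ : ∃ b : ℝ, b = min (1 / 2) (κ / 112) := ⟨_, rfl⟩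
  have hb0 : 0 < b := by
    rw [hb]
    positivity
  have hb1 : b ≤ 1 / 2 := by
    rw [hb]
    exact min_le_left _ _
  have hb2 : b ≤ κ / 112 := by
    rw [hb]
    exact min_le_right _ _
  have hcast : Tendsto (fun X : ℕ => (X : ℝ)) atTop atTop := tendsto_natCast_atTop_atTop
  have ev1 := hcast.eventually_ge_atTop X₁
  have ev2 := ((tendsto_rpow_atTop hβ0).comp hcast).eventually_ge_atTop 2
  have ev3 := (Real.tendsto_log_atTop.comp hcast).eventually_gt_atTop
    ((C + 8 * Real.log 4 + 28) / (κ / 4))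
  have ev5 := hcast.eventually_ge_atTop 2
  obtain ⟨N₀, hN₀⟩ := eventually_atTop.1 (ev1.and (ev2.and (ev3.and ev5)))
  refine ⟨b, β, N₀, hb0, hb1, hβ0, fun X hX => ?_⟩
  obtain ⟨e1, e2, e3, e5⟩ := hN₀ X (by exact_mod_cast hX)
  simp only [Function.comp_apply] at e2 e3
  rw [div_lt_iff₀ (by positivity)] at e3
  have hX0 : (0 : ℝ) < X := by linarith
  have hlX : 0 < Real.log X := Real.log_pos (by linarith)
  obtain ⟨z, hz⟩ : ∃ z : ℝ, z = (X : ℝ) ^ β := ⟨_, rfl⟩
  rw [← hz] at e2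
  have hz0 : 0 < z := by linarith
  obtain ⟨N, hN⟩ : ∃ N : ℕ, N = ⌊z⌋₊ := ⟨_, rfl⟩
  have hN2 : 2 ≤ N := by
    rw [hN]
    exact Nat.le_floor (by exact_mod_cast e2)
  have hNz : (N : ℝ) ≤ z := by
    rw [hN]
    exact Nat.floor_le hz0.le
  have hzN : z < N + 1 := by
    rw [hN]
    exact Nat.lt_floor_add_one z
  have hlN : Real.log N ≤ β * Real.log X := by
    have hN0 : (0 : ℝ) < N := by
      have : 0 < N := by omega
      exact_mod_cast this
    calc Real.log N ≤ Real.log z := Real.log_le_log hN0 hNz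
      _ = β * Real.log X := by rw [hz, Real.log_rpow hX0]
  -- the primes
  have hgp : ∀ p : ℕ, p.Prime → g p ≤ 4 := by
    intro p hp
    have h1 := hg p hp.one_lt.le
    have h2 := card_div (a := 1) hp
    rw [pow_one] at h2
    rw [h2] at h1
    norm_num at h1
    exact h1
  have hterm0 : ∀ p : ℕ, 0 ≤ g p / (p : ℝ) * Real.log p := fun p =>
    mul_nonneg (div_nonneg (h0 p) (Nat.cast_nonneg p)) (Real.log_natCast_nonneg p)
  have hsmall : ∑ p ∈ ((Icc 2 X).filter Nat.Prime).filter (fun p => p ≤ N),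
      g p / (p : ℝ) * Real.log p ≤ 4 * (Real.log 4 * (2 + Real.log N)) := by
    calc ∑ p ∈ ((Icc 2 X).filter Nat.Prime).filter (fun p => p ≤ N), g p / (p : ℝ) * Real.log p
        ≤ ∑ p ∈ (Icc 2 N).filter Nat.Prime, g p / (p : ℝ) * Real.log p := by
          refine sum_le_sum_of_subset_of_nonneg ?_ fun p _ _ => hterm0 p
          intro p hp
          simp only [mem_filter, mem_Icc] at hp ⊢
          exact ⟨⟨hp.1.1.1, hp.2⟩, hp.1.2⟩
      _ ≤ ∑ p ∈ (Icc 2 N).filter Nat.Prime, 4 * (Real.log p / p) := by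
          refine sum_le_sum fun p hp => ?_
          have hp' := (mem_filter.1 hp).2
          have h1 : 0 ≤ Real.log p / p :=
            div_nonneg (Real.log_natCast_nonneg p) (Nat.cast_nonneg p)
          calc g p / (p : ℝ) * Real.log p = g p * (Real.log p / p) := by ring
            _ ≤ 4 * (Real.log p / p) := mul_le_mul_of_nonneg_right (hgp p hp') h1
      _ ≤ 4 * (Real.log 4 * (2 + Real.log N)) := by
          rw [← mul_sum]
          exact mul_le_mul_of_nonneg_left (cheb N (by omega)) (by norm_num)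
  obtain ⟨f, hf⟩ : ∃ f : ℕ → ℝ, f = fun p => if p.Prime then g p / (p : ℝ) * Real.log p else 0 :=
    ⟨_, rfl⟩
  have hf0 : ∀ p, 0 ≤ f p := by
    intro p
    rw [hf]
    dsimp only
    split_ifs
    · exact hterm0 p
    · exact le_rfl
  have hlarge : ∑ p ∈ ((Icc 2 X).filter Nat.Prime).filter (fun p => ¬ p ≤ N),
      g p / (p : ℝ) * Real.log p ≤ ∑ p ∈ Ioc N X, f p := by
    have h1 : ∑ p ∈ Ioc N X, f p =
        ∑ p ∈ (Ioc N X).filter Nat.Prime, g p / (p : ℝ) * Real.log p := by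
      rw [hf, sum_filter]
    rw [h1]
    refine sum_le_sum_of_subset_of_nonneg ?_ fun p _ _ => hterm0 p
    intro p hp
    simp only [mem_filter, mem_Icc, mem_Ioc] at hp ⊢
    exact ⟨⟨by omega, hp.1.1.2⟩, hp.1.2⟩
  -- all prime powers
  have hall : κ * Real.log X ≤ C + (4 * (Real.log 4 * (2 + Real.log N)) +
      ∑ p ∈ Ioc N X, f p) := by
    refine (H X e1).trans ?_
    rw [← sum_filter_not_add_sum_filter ((Icc 2 X).filter IsPrimePow) (fun q => q.Prime)]
    refine add_le_add ?_ ?_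
    · rw [filter_filter]
      exact hC X
    · have h1 : ((Icc 2 X).filter IsPrimePow).filter (fun q => q.Prime) ⊆
          (Icc 2 X).filter Nat.Prime := by
        intro q hq
        simp only [mem_filter] at hq ⊢
        exact ⟨hq.1.1, hq.2⟩
      refine (sum_le_sum_of_subset_of_nonneg h1 fun p _ _ => hterm0 p).trans ?_
      rw [← sum_filter_add_sum_filter_not ((Icc 2 X).filter Nat.Prime) (fun p => p ≤ N)]
      exact add_le_add hsmall hlarge
  have h8 : 4 * (Real.log 4 * (2 + Real.log N)) ≤ 8 * Real.log 4 + κ / 4 * Real.log X := by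
    have h9 : 4 * Real.log 4 * Real.log N ≤ 4 * Real.log 4 * (β * Real.log X) :=
      mul_le_mul_of_nonneg_left hlN (by positivity)
    have h10 : 4 * Real.log 4 * (β * Real.log X) = κ / 4 * Real.log X := by
      rw [← hβκ]
      ring
    linarith
  by_contra hcon
  push Not at hcon
  have hz₀ : ∀ j : ℕ, (X : ℝ) ^ β ≤ ((2 ^ j * (N + 1) : ℕ) : ℝ) := by
    intro j
    have h1 : N + 1 ≤ 2 ^ j * (N + 1) := Nat.le_mul_of_pos_left _ (by positivity)
    have h2 : ((N + 1 : ℕ) : ℝ) ≤ ((2 ^ j * (N + 1) : ℕ) : ℝ) := by exact_mod_cast h1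
    rw [← hz]
    push_cast at h2 ⊢
    linarith
  -- the blocks
  have hblocks : ∀ J : ℕ, 2 ^ J * (N + 1) ≤ X →
      ∑ p ∈ Ioc (N + 1) (2 ^ J * (N + 1)), f p ≤ J * (14 * b) := by
    intro J
    induction J with
    | zero =>
      intro _
      rw [pow_zero, one_mul, Ioc_self, sum_empty]
      simp
    | succ J ih =>
      intro hJ
      have hJ1 : 2 ^ (J + 1) * (N + 1) = 2 * (2 ^ J * (N + 1)) := by ring
      have hJ2 : 2 ^ J * (N + 1) ≤ X := by omega
      have hJ3 : N + 1 ≤ 2 ^ J * (N + 1) := Nat.le_mul_of_pos_left _ (by positivity)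
      rw [← sum_Ioc_consecutive f hJ3 (show 2 ^ J * (N + 1) ≤ 2 ^ (J + 1) * (N + 1) by omega)]
      have h1 : ∑ p ∈ Ioc (2 ^ J * (N + 1)) (2 ^ (J + 1) * (N + 1)), f p ≤ 14 * b := by
        rw [hJ1]
        have h2 := block_g g h0 hgp (2 ^ J * (N + 1)) (by omega) hb0
          (hcon _ (hz₀ J) (by omega))
        rw [sum_filter] at h2
        rw [hf]
        exact h2
      push_cast
      linarith [ih hJ2]
  -- the last block
  by_cases hNX : N + 1 ≤ X
  · obtain ⟨J, hJ1, hJ2⟩ : ∃ J : ℕ, 2 ^ J * (N + 1) ≤ X ∧ X < 2 ^ (J + 1) * (N + 1) := by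
      have hex : ∃ k : ℕ, X < 2 ^ k * (N + 1) :=
        ⟨X, lt_of_lt_of_le (Nat.lt_two_pow_self) (Nat.le_mul_of_pos_right _ (by omega))⟩
      classical
      have h1 := Nat.find_spec hex
      rcases Nat.exists_eq_succ_of_ne_zero (n := Nat.find hex) (by
        intro h
        rw [h, pow_zero, one_mul] at h1
        omega) with ⟨J, hJ⟩
      refine ⟨J, ?_, ?_⟩
      · exact not_lt.1 (Nat.find_min hex (m := J) (by omega))
      · rw [hJ] at h1
        exact h1
    have hJ3 : N + 1 ≤ 2 ^ J * (N + 1) := Nat.le_mul_of_pos_left _ (by positivity)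
    have s1 : ∑ p ∈ Ioc N (N + 1), f p ≤ 4 := by
      rw [Nat.Ioc_succ_singleton, sum_singleton, hf]
      dsimp only
      split_ifs with h
      · have hp0 : (0 : ℝ) < ((N + 1 : ℕ) : ℝ) := by positivity
        have h1 := Real.log_le_sub_one_of_pos hp0
        have h2 := hgp _ h
        have h3 : Real.log ((N + 1 : ℕ) : ℝ) ≤ ((N + 1 : ℕ) : ℝ) := by linarith
        calc g (N + 1) / ((N + 1 : ℕ) : ℝ) * Real.log ((N + 1 : ℕ) : ℝ) ≤
              g (N + 1) / ((N + 1 : ℕ) : ℝ) * ((N + 1 : ℕ) : ℝ) :=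
              mul_le_mul_of_nonneg_left h3 (div_nonneg (h0 _) hp0.le)
          _ = g (N + 1) := by field_simp
          _ ≤ 4 := h2
      · norm_num
    have s2 := hblocks J hJ1
    have s3 : ∑ p ∈ Ioc (2 ^ J * (N + 1)) X, f p ≤ 24 := by
      have h1 : 2 ^ (J + 1) * (N + 1) = 2 * (2 ^ J * (N + 1)) := by ring
      calc ∑ p ∈ Ioc (2 ^ J * (N + 1)) X, f p ≤
            ∑ p ∈ Ioc (2 ^ J * (N + 1)) (2 * (2 ^ J * (N + 1))), f p := by
            refine sum_le_sum_of_subset_of_nonneg ?_ fun p _ _ => hf0 p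
            intro p hp
            rw [mem_Ioc] at hp ⊢
            omega
        _ ≤ ∑ p ∈ (Ioc (2 ^ J * (N + 1)) (2 * (2 ^ J * (N + 1)))).filter Nat.Prime,
              4 * (Real.log p / p) := by
            rw [sum_filter, hf]
            refine sum_le_sum fun p _ => ?_
            split_ifs with h
            · have h2 : 0 ≤ Real.log p / p :=
                div_nonneg (Real.log_natCast_nonneg p) (Nat.cast_nonneg p)
              calc g p / (p : ℝ) * Real.log p = g p * (Real.log p / p) := by ring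
                _ ≤ 4 * (Real.log p / p) := mul_le_mul_of_nonneg_right (hgp p h) h2
            · exact le_rfl
        _ ≤ 4 * 6 := by
            rw [← mul_sum]
            exact mul_le_mul_of_nonneg_left (block_log _ (by omega)) (by norm_num)
        _ = 24 := by norm_num
    have hsum : ∑ p ∈ Ioc N X, f p ≤ 4 + J * (14 * b) + 24 := by
      rw [← sum_Ioc_consecutive f (Nat.le_succ N) hNX,
        ← sum_Ioc_consecutive f hJ3 hJ1]
      linarith
    have hJX : (J : ℝ) ≤ 2 * Real.log X := by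
      have h1 : 2 ^ J ≤ X := le_trans (Nat.le_mul_of_pos_right _ (by omega)) hJ1
      have h2 : (2 : ℝ) ^ J ≤ X := by exact_mod_cast h1
      have h3 := Real.log_le_log (by positivity) h2
      rw [Real.log_pow] at h3
      have h4 : (1 / 2 : ℝ) ≤ Real.log 2 := by linarith [Real.log_two_gt_d9]
      have h5 : (J : ℝ) * (1 / 2) ≤ J * Real.log 2 :=
        mul_le_mul_of_nonneg_left h4 (Nat.cast_nonneg J)
      linarith
    have h11 : (J : ℝ) * (14 * b) ≤ κ / 4 * Real.log X := by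
      calc (J : ℝ) * (14 * b) ≤ (2 * Real.log X) * (14 * (κ / 112)) :=
            mul_le_mul hJX (by linarith) (by positivity) (by positivity)
        _ = κ / 4 * Real.log X := by ring
    have h12 : (0 : ℝ) ≤ κ / 4 * Real.log X := by positivity
    linarith
  · have hsum : ∑ p ∈ Ioc N X, f p = 0 := by
      rw [Ioc_eq_empty (by omega), sum_empty]
    have h12 : (0 : ℝ) ≤ κ / 4 * Real.log X := by positivity
    linarith

end Pool.Agent.H94.XW

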